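import Pool.Agent.helper23.CU.Spec

/-!
# Module cu:SU
-/

open Finset Filter Topology

namespace CU

/-- values in `[0,1]` are preserved -/
theorem SU_01 (hLIN : LIN_stmt) (hREV : REV_stmt) (d n : ℕ) [NeZero n] (β : ℝ) (f : Conf d n → ℝ)
    (hf : ∀ η, 0 ≤ f η ∧ f η ≤ 1) (t : ℕ) : ∀ η, 0 ≤ (Pf β)^[t] f η ∧ (Pf β)^[t] f η ≤ 1 := by
  intro η
  have h0 := (hLIN d n β (fun _ => 0) f 0 0 t).2.1 (fun σ => (hf σ).1) η
  have h1 := (hLIN d n β f (fun _ => 1) 0 0 t).2.1 (fun σ => (hf σ).2) η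
  have c0 := congrFun ((hREV d n β f f t).2 0) η
  have c1 := congrFun ((hREV d n β f f t).2 1) η
  exact ⟨c0 ▸ h0, c1 ▸ h1⟩

/-- stationarity -/
theorem SU_stat (hREV : REV_stmt) (d n : ℕ) [NeZero n] (β : ℝ) (f : Conf d n → ℝ) (t : ℕ) :
    Ex β ((Pf β)^[t] f) = Ex β f := by
  obtain ⟨h1, h2⟩ := hREV d n β (fun _ => 1) f t
  have h3 := h2 1
  rw [h3] at h1
  simpa only [one_mul] using h1

/-- on `G^+` the values of `P^u f` are close to the value at `plus` -/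
theorem SU_bd (hL1 : L1_stmt) (hLIN : LIN_stmt) (hREV : REV_stmt) (d n : ℕ) [NeZero n] (hn : 3 ≤ n)
    (β : ℝ) (hβ : 0 ≤ β) (f : Conf d n → ℝ) (hf : ∀ η, 0 ≤ f η ∧ f η ≤ 1) (s u : ℕ) (hu : s ≤ u)
    (z : Conf d n) (hz : z ∈ Gp (d := d) (n := n) β s) :
    |(Pf β)^[u] f plus - (Pf β)^[u] f z| ≤ 1 / 200 := by
  have e : (Pf β)^[u] f = (Pf β)^[s] ((Pf β)^[u - s] f) := by
    rw [← Function.iterate_add_apply]
    congr 1
    omega
  rw [e]
  have hle : z ≤ plus := fun x => Bool.le_true _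
  have h := hL1 d n hn β hβ s ((Pf β)^[u - s] f) (SU_01 hLIN hREV d n β f hf (u - s)) z plus hle
  have hz' : gs β s (plus : Conf d n) - 1 / 100 ≤ gs β s z := hz
  linarith

/-- average over `G^+` -/
theorem SU_avg (hL1 : L1_stmt) (hLIN : LIN_stmt) (hREV : REV_stmt) (d n : ℕ) [NeZero n] (hn : 3 ≤ n)
    (β : ℝ) (hβ : 0 ≤ β) (f : Conf d n → ℝ) (hf : ∀ η, 0 ≤ f η ∧ f η ≤ 1) (s u : ℕ) (hu : s ≤ u) :
    (Pf β)^[u] f plus * PrE β (Gp (d := d) (n := n) β s) ≤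
      Ex β f + 1 / 200 * PrE β (Gp (d := d) (n := n) β s) := by
  have hpt : ∀ σ : Conf d n,
      ((Pf β)^[u] f plus) * (Gp (d := d) (n := n) β s).indicator (fun _ => (1 : ℝ)) σ + 0 * 0 ≤
        1 * (Pf β)^[u] f σ + 1 / 200 * (Gp (d := d) (n := n) β s).indicator (fun _ => (1 : ℝ)) σ := by
    intro σ
    have h0 := (SU_01 hLIN hREV d n β f hf u σ).1
    by_cases hσ : σ ∈ Gp (d := d) (n := n) β s
    · rw [Set.indicator_of_mem hσ]
      have := (abs_le.mp (SU_bd hL1 hLIN hREV d n hn β hβ f hf s u hu σ hσ)).2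
      linarith
    · rw [Set.indicator_of_notMem hσ]
      linarith
  have h1 := (hLIN d n β (fun σ : Conf d n =>
      ((Pf β)^[u] f plus) * (Gp (d := d) (n := n) β s).indicator (fun _ => (1 : ℝ)) σ + 0 * 0)
      (fun σ : Conf d n => 1 * (Pf β)^[u] f σ +
        1 / 200 * (Gp (d := d) (n := n) β s).indicator (fun _ => (1 : ℝ)) σ) 0 0 0).2.2.2.1 hpt
  have h2 := (hLIN d n β ((Gp (d := d) (n := n) β s).indicator (fun _ => (1 : ℝ))) (fun _ => 0)
    ((Pf β)^[u] f plus) 0 0).2.2.1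
  have h3 := (hLIN d n β ((Pf β)^[u] f) ((Gp (d := d) (n := n) β s).indicator (fun _ => (1 : ℝ)))
    1 (1 / 200) 0).2.2.1
  rw [h2, h3, SU_stat hREV] at h1
  unfold PrE
  linarith

/-- SU -/
theorem SU (hL1 : L1_stmt) (hLIN : LIN_stmt) (hREV : REV_stmt) (hGA : GA_stmt) : SU_stmt := by
  intro d n _ hn β hβ A s hA u hu
  obtain ⟨-, hp, hb, -, -⟩ := hGA d n hn β hβ A s hA
  set gm : Conf d n → ℝ := (Gm (d := d) (n := n) β s).indicator (fun _ => (1 : ℝ)) with hgm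
  set bd : Conf d n → ℝ := ((Gp (d := d) (n := n) β s ∪ Gm β s)ᶜ).indicator (fun _ => (1 : ℝ)) with hbd
  have ind01 : ∀ (S : Set (Conf d n)) (η : Conf d n), 0 ≤ S.indicator (fun _ => (1 : ℝ)) η ∧
      S.indicator (fun _ => (1 : ℝ)) η ≤ 1 := by
    intro S η
    by_cases h : η ∈ S
    · rw [Set.indicator_of_mem h]
      norm_num
    · rw [Set.indicator_of_notMem h]
      norm_num
  -- the bad part
  have hB := SU_avg hL1 hLIN hREV d n hn β hβ bd (ind01 _) s u hu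
  have hB' : (Pf β)^[u] bd plus ≤ 28 / 1000 := by
    have hb' : Ex β bd ≤ 11 / 1000 := hb
    by_contra hcon
    push Not at hcon
    nlinarith
  -- the main estimate
  have hpu : pt (d := d) (n := n) β s u = (Pf β)^[u] gm plus := rfl
  have hp2 : pt (d := d) (n := n) β s (2 * u) = (Pf β)^[u] ((Pf β)^[u] gm) plus := by
    rw [← Function.iterate_add_apply, ← two_mul]
    rfl
  have hpt : ∀ σ : Conf d n, (Pf β)^[u] gm σ ≤
      1 * ((Pf β)^[u] gm plus + 1 / 200) + 1 * (1 * gm σ + 1 * bd σ) := by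
    intro σ
    have h1 := (SU_01 hLIN hREV d n β gm (ind01 _) u σ).2
    have h0 := (SU_01 hLIN hREV d n β gm (ind01 _) u plus).1
    by_cases hσ : σ ∈ Gp (d := d) (n := n) β s
    · have h2 := (abs_le.mp (SU_bd hL1 hLIN hREV d n hn β hβ gm (ind01 _) s u hu σ hσ)).1
      have h3 := (ind01 (Gm (d := d) (n := n) β s) σ).1
      have h4 := (ind01 ((Gp (d := d) (n := n) β s ∪ Gm β s)ᶜ) σ).1
      rw [← hgm] at h3
      rw [← hbd] at h4
      linarith
    · by_cases hσ' : σ ∈ Gm (d := d) (n := n) β s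
      · have h3 : gm σ = 1 := Set.indicator_of_mem hσ' _
        have h4 := (ind01 ((Gp (d := d) (n := n) β s ∪ Gm β s)ᶜ) σ).1
        rw [← hbd] at h4
        linarith
      · have h3 := (ind01 (Gm (d := d) (n := n) β s) σ).1
        rw [← hgm] at h3
        have h4 : bd σ = 1 := Set.indicator_of_mem (fun h => h.elim hσ hσ') _
        linarith
  have m1 := (hLIN d n β ((Pf β)^[u] gm) (fun σ : Conf d n =>
      1 * ((Pf β)^[u] gm plus + 1 / 200) + 1 * (1 * gm σ + 1 * bd σ)) 0 0 u).2.1 hpt plus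
  have m2 := congrFun ((hLIN d n β (fun _ : Conf d n => (Pf β)^[u] gm plus + 1 / 200)
    (fun σ : Conf d n => 1 * gm σ + 1 * bd σ) 1 1 u).1) plus
  have m3 := congrFun ((hLIN d n β gm bd 1 1 u).1) plus
  have m4 := congrFun ((hREV d n β gm gm u).2 ((Pf β)^[u] gm plus + 1 / 200)) (plus : Conf d n)
  rw [hp2, hpu]
  rw [m2] at m1
  simp only [m3, m4] at m1
  linarith

end CU
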